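import Pool.Agent.T2H03.UB.Crit

/-!
# `MP_28b826_pr`, Q2: the mean occupation time at criticality is infinite

For every subcritical update family `U` with `p_c(U) < 1` there is `c > 0` with
`P_{p_c}(T > n) ≥ c / n` for all `n ≥ 1`, so `E_{p_c} T = ∞` (with or without percolation at
`p_c`).  In the remaining case `p_c(U) = 1`, which happens if and only if every direction is stable,
`E_{p_c} T = 0` trivially.

The proof is a finite size criterion: if the rule `X` lies in an open half plane and
`T(0) > (k + 1) n`, then one of the `O(n)` sites `y` of a strip at distance of order `n` has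
`T(y) > n`, and the events `T(0) > n`, `T(y) > n` are independent; so
`P(T > (k + 1) n) ≤ C n P(T > n)^2`.  If `n P(T > n)` is small for one `n` at the parameter `p`, it
is small for all nearby parameters by continuity, and then the process percolates there.
-/

open MeasureTheory Set UBoot
open scoped ENNReal unitInterval

namespace Pool.Agent.Results.MP_28b826_pr.InfiniteMeanAtCriticality

/-- Answer to Q2 for all subcritical update families. -/
theorem result (U : Finset (Finset (ℤ × ℤ))) (hsub : Subcritical U) :
    (∃ p : I, (p : ℝ) = pc U) ∧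
    (∀ p : I, (p : ℝ) = pc U →
      (pc U < 1 →
        (∃ c : ℝ, 0 < c ∧ ∀ n : ℕ, 1 ≤ n →
          c / n ≤ (law p).real {A | (n : ℝ≥0∞) < occupationTime U A}) ∧
        ∫⁻ A, occupationTime U A ∂(law p) = ∞) ∧
      (pc U = 1 → ∫⁻ A, occupationTime U A ∂(law p) = 0)) ∧
    (pc U = 1 ↔ ∀ u : ℝ × ℝ, u.1 ^ 2 + u.2 ^ 2 = 1 → Stable U u) := by
  have hne := nonempty_of_subcritical hsub
  have hiff : pc U = 1 ↔ ∀ u : ℝ × ℝ, u.1 ^ 2 + u.2 ^ 2 = 1 → Stable U u := by
    constructor
    · intro h u _
      by_contra hu
      have := (main_unstable hne hu).1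
      linarith
    · exact main_stable
  refine ⟨⟨⟨pc U, pc_nonneg U, pc_le_one U⟩, rfl⟩, fun p hp => ⟨fun hlt => ?_, fun h1 => ?_⟩, hiff⟩
  · have hu : ∃ u : ℝ × ℝ, ¬ Stable U u := by
      by_contra hcon
      push Not at hcon
      have := hiff.2 fun u _ => hcon u
      linarith
    obtain ⟨u, hu⟩ := hu
    obtain ⟨-, c, hc, hb⟩ := main_unstable hne hu
    refine ⟨⟨c, hc, fun n hn => ?_⟩, mean_infinite hc (hb p hp)⟩
    rw [setOf_lt_occupationTime]
    exact hb p hp n hn
  · have hp1 : p = 1 := Subtype.ext (by rw [hp, h1]; rfl)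
    rw [hp1]
    exact mean_zero

end Pool.Agent.Results.MP_28b826_pr.InfiniteMeanAtCriticality
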